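import Mathlib
import Pool.Agent.H342R3.SB5

/-!
An expanding repeller of a `C^∞` expanding map whose box dimension does not exist.
-/

set_option autoImplicit false

open Filter
open scoped Topology ContDiff

namespace Pool.Agent.Results.MP_16bd3e_an.RepellerNoBoxDimension

/-- The flat cylinder `ℝ⁴ × (ℝ/κℤ)` with its Riemannian distance
`√(|x - x'|² + dist(θ, θ')²)`. -/
abbrev Cyl (κ : ℝ) := WithLp 2 (EuclideanSpace ℝ (Fin 4) × AddCircle κ)

/-- Its universal cover, the Euclidean space `ℝ⁴ × ℝ = ℝ⁵`. -/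
abbrev Cover := WithLp 2 (EuclideanSpace ℝ (Fin 4) × ℝ)

/-- The covering map `(x, θ) ↦ (x, θ mod κ)`, a local isometry. -/
noncomputable def proj (κ : ℝ) (q : Cover) : Cyl κ := WithLp.toLp 2 (q.fst, (q.snd : AddCircle κ))

/-- `f` is a `C^∞` expanding map of the flat cylinder: it has a lift `F` to the universal cover which
is `C^∞` and satisfies `‖D_q F v‖ ≥ c ‖v‖` for all `q, v`, with a constant `c > 1`. -/
def IsSmoothExpanding (κ : ℝ) (f : Cyl κ → Cyl κ) : Prop :=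
  ∃ F : Cover → Cover, ContDiff ℝ ∞ F ∧ (∀ q, f (proj κ q) = proj κ (F q)) ∧
    ∃ c : ℝ, 1 < c ∧ ∀ q v, c * ‖v‖ ≤ ‖fderiv ℝ F q v‖

/-- `Λ` is a repeller of `f`: nonempty, compact, `f(Λ) = Λ`, and `Λ` is the set of points whose
whole forward orbit stays in some open neighbourhood `U` of `Λ`. -/
def IsRepeller {M : Type} [TopologicalSpace M] (f : M → M) (Λ : Set M) : Prop :=
  Λ.Nonempty ∧ IsCompact Λ ∧ f '' Λ = Λ ∧
    ∃ U : Set M, IsOpen U ∧ Λ ⊆ U ∧ Λ = {x | x ∈ U ∧ ∀ n : ℕ, f^[n] x ∈ U}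

/-- The least number `N_δ(E)` of sets of diameter at most `δ` needed to cover `E`. -/
noncomputable def coveringNumber {M : Type} [PseudoMetricSpace M] (E : Set M) (δ : ℝ) : ℕ :=
  sInf {n : ℕ | ∃ U : Fin n → Set M, (∀ i, ∀ x ∈ U i, ∀ y ∈ U i, dist x y ≤ δ) ∧ E ⊆ ⋃ i, U i}

/-- The lower box dimension: `liminf_{δ → 0+} log N_δ(E) / (- log δ)`. -/
noncomputable def lowerBoxDim {M : Type} [PseudoMetricSpace M] (E : Set M) : EReal :=
  liminf (fun δ : ℝ => ((Real.log (coveringNumber E δ) / -Real.log δ : ℝ) : EReal)) (𝓝[>] 0)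

/-- The upper box dimension: `limsup_{δ → 0+} log N_δ(E) / (- log δ)`. -/
noncomputable def upperBoxDim {M : Type} [PseudoMetricSpace M] (E : Set M) : EReal :=
  limsup (fun δ : ℝ => ((Real.log (coveringNumber E δ) / -Real.log δ : ℝ) : EReal)) (𝓝[>] 0)

/-- There are a flat cylinder `M = ℝ⁴ × (ℝ/κℤ)`, a `C^∞` expanding map `f : M → M` and an expanding
repeller `Λ` of `f` whose lower box dimension is strictly smaller than its upper box dimension. -/
theorem result : ∃ (κ : ℝ) (f : Cyl κ → Cyl κ) (Λ : Set (Cyl κ)),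
    0 < κ ∧ IsSmoothExpanding κ f ∧ IsRepeller f Λ ∧ lowerBoxDim Λ < upperBoxDim Λ :=
  ⟨H342R3.SA.kap, H342R3.SA.f, H342R3.SA.Lam, H342R3.SA.kap_pos,
    ⟨H342R3.SA.F, H342R3.SA.F_smooth, H342R3.SA.f_proj, 2, one_lt_two, H342R3.SA.F_expand⟩,
    ⟨H342R3.SA.Lam_ne, H342R3.SA.Lam_compact, H342R3.SA.f_Lam, H342R3.SA.repeller⟩,
    H342R3.SA.main_dimM⟩

end Pool.Agent.Results.MP_16bd3e_an.RepellerNoBoxDimension
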